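import Pool.Agent.H31.CoarseSign

set_option autoImplicit false

namespace Pool.Agent.Results.MP_2695c4_gt.Counter
open Filter Pool.Agent.H31.Coarse
open scoped NNReal Classical

/-- uniformly locally finite -/
def ULF (X : Type) [MetricSpace X] : Prop :=
  ∀ r : ℝ, 0 < r → ∃ N : ℕ, ∀ x : X, (Metric.closedBall x r).encard ≤ N

/-- coarse map -/
def IsCoarse {X Y : Type} [MetricSpace X] [MetricSpace Y] (f : X → Y) : Prop :=
  ∀ r : ℝ, 0 < r → ∃ s : ℝ, 0 < s ∧ ∀ x x', dist x x' ≤ r → dist (f x) (f x') ≤ s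

/-- uniformly finite-to-one -/
def UFinToOne {X Y : Type} (f : X → Y) : Prop := ∃ N : ℕ, ∀ y, (f ⁻¹' {y}).encard ≤ N

/-- coarse embeddability into a Hilbert space (in universe `u`) -/
def EmbedsHilbert.{u} (X : Type) [MetricSpace X] : Prop :=
  ∃ (H : Type u) (_ : NormedAddCommGroup H) (_ : InnerProductSpace ℝ H) (_ : CompleteSpace H)
    (g : X → H) (ρm ρp : ℝ≥0 → ℝ≥0), Tendsto ρm atTop atTop ∧
      ∀ x x', ρm (nndist x x') ≤ ‖g x - g x'‖₊ ∧ ‖g x - g x'‖₊ ≤ ρp (nndist x x')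

noncomputable def sn (n : ℕ) : (cov (Gn n)).E → ZMod 2 := (exists_sign (cov (Gn n))).choose
lemma sn_spec (n : ℕ) : ∀ S, ¬ Bad (cov (Gn n)) S (sn n) := (exists_sign (cov (Gn n))).choose_spec

def XX : Type := Σ n : ℕ, (cov (Gn n)).V × ZMod 2
noncomputable def wk (x : XX) (l : List (I × Bool)) : XX :=
  ⟨x.1, walk (liftPerm _ (sn x.1)) x.2 l⟩
def L (x : XX) : ℕ := x.1 + 1
def Near (x y : XX) (k : ℕ) : Prop :=
  (∃ l : List (I × Bool), l.length ≤ k ∧ wk x l = y) ∨ L x + L y ≤ k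
noncomputable def D (x y : XX) : ℕ := sInf {k | Near x y k}

lemma near_D (x y : XX) : Near x y (D x y) :=
  Nat.sInf_mem (s := {k | Near x y k}) ⟨L x + L y, Or.inr le_rfl⟩
lemma D_le {x y : XX} {k : ℕ} (h : Near x y k) : D x y ≤ k := Nat.sInf_le h
lemma Near.mono {x y : XX} {k k' : ℕ} (h : Near x y k) (hk : k ≤ k') : Near x y k' := by
  rcases h with ⟨l, h1, h2⟩ | h
  · exact Or.inl ⟨l, h1.trans hk, h2⟩
  · exact Or.inr (h.trans hk)

lemma Near.symm {x y : XX} {k : ℕ} (h : Near x y k) : Near y x k := by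
  rcases h with ⟨l, h1, rfl⟩ | h
  · obtain ⟨l', h2, h3⟩ := walk_rev (liftPerm _ (sn x.1)) l x.2
    refine Or.inl ⟨l', h2 ▸ h1, ?_⟩
    exact congrArg (fun z => (⟨x.1, z⟩ : XX)) h3
  · exact Or.inr (by omega)

lemma Near.trans {x y z : XX} {k k' : ℕ} (h : Near x y k) (h' : Near y z k') :
    Near x z (k + k') := by
  rcases h with ⟨l, h1, rfl⟩ | h
  · rcases h' with ⟨l', h2, rfl⟩ | h'
    · refine Or.inl ⟨l ++ l', by simp; omega, ?_⟩
      exact congrArg (fun z => (⟨x.1, z⟩ : XX)) (walk_append _ l l' x.2)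
    · have : L (wk x l) = L x := rfl
      exact Or.inr (by omega)
  · rcases h' with ⟨l', h2, rfl⟩ | h'
    · have : L (wk y l') = L y := rfl
      exact Or.inr (by omega)
    · exact Or.inr (by omega)

noncomputable instance : MetricSpace XX where
  dist x y := D x y
  dist_self x := by
    have : D x x ≤ 0 := D_le (Or.inl ⟨[], le_rfl, rfl⟩)
    simp [Nat.le_zero.1 this]
  dist_comm x y := by
    have : D x y = D y x := le_antisymm (D_le (near_D y x).symm) (D_le (near_D x y).symm)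
    simp [this]
  dist_triangle x y z := by exact_mod_cast D_le ((near_D x y).trans (near_D y z))
  eq_of_dist_eq_zero := by
    intro x y h
    have h0 : D x y = 0 := by exact_mod_cast h
    rcases h0 ▸ near_D x y with ⟨l, h1, h2⟩ | h
    · rw [List.length_eq_zero_iff.1 (Nat.le_zero.1 h1)] at h2; exact h2
    · simp [L] at h

lemma dist_def (x y : XX) : dist x y = D x y := rfl

lemma fin_level (k : ℕ) : {x : XX | L x ≤ k}.Finite := by
  refine ((Set.finite_lt_nat k).biUnion fun n _ =>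
    Set.finite_range (fun x : (cov (Gn n)).V × ZMod 2 => (⟨n, x⟩ : XX))).subset fun x hx => ?_
  exact Set.mem_biUnion (x := x.1) hx ⟨x.2, rfl⟩

lemma bnd {α β : Type} {A : Set α} (hA : A.Finite) {B : Set β} (hB : B.Finite) :
    ∃ N : ℕ, ∀ (f : β → α) (S : Set α), S ⊆ A ∪ f '' B → S.encard ≤ N := by
  refine ⟨A.ncard + B.ncard, fun f S hS => (Set.encard_le_encard hS).trans
    ((Set.encard_union_le _ _).trans ?_)⟩
  rw [Nat.cast_add, hA.cast_ncard_eq, hB.cast_ncard_eq]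
  exact add_le_add le_rfl (Set.encard_image_le _ _)

lemma near_of_dist {x y : XX} {r : ℝ} {k : ℕ} (hk : r ≤ k) (h : dist x y ≤ r) : Near x y k :=
  (near_D x y).mono (by exact_mod_cast (dist_def x y ▸ h).trans hk)

lemma ulfX : ULF XX := by
  intro r _
  obtain ⟨k, hk⟩ := exists_nat_ge r
  obtain ⟨N, hN⟩ := bnd (fin_level k) (List.finite_length_le (I × Bool) k)
  refine ⟨N, fun x => hN (wk x) _ fun y hy => ?_⟩
  rcases near_of_dist hk (Metric.mem_closedBall'.1 hy) with ⟨l, h1, h2⟩ | h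
  · exact Or.inr ⟨l, h1, h2⟩
  · exact Or.inl (show L y ≤ k by omega)

abbrev J (n : ℕ) : Type := (Gn n).E ⊕ (((Gn n).V → ZMod 2) → ZMod 2)

noncomputable def vec (n : ℕ) (x : (cov (Gn n)).V) : EuclideanSpace ℝ (J n) :=
  WithLp.toLp 2 (Sum.elim (fun e => if x.2 e = 1 then 1 else 0)
    (fun c => if c = cls (Gn n) x then (n + 1 : ℝ) else 0))

lemma vec_ge (n : ℕ) (x : (cov (Gn n)).V) : (n + 1 : ℝ) ≤ ‖vec n x‖ := by
  refine le_trans ?_ (PiLp.norm_apply_le (vec n x) (Sum.inr (cls (Gn n) x)))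
  simp only [vec, Sum.elim_inr, if_true]
  exact le_abs_self _

lemma vec_ne (n : ℕ) (x y : (cov (Gn n)).V) (h : cls (Gn n) x ≠ cls (Gn n) y) :
    (n + 1 : ℝ) ≤ ‖vec n x - vec n y‖ := by
  refine le_trans ?_ (PiLp.norm_apply_le (vec n x - vec n y) (Sum.inr (cls (Gn n) x)))
  simp only [vec, PiLp.sub_apply, Sum.elim_inr, if_true, if_neg h, sub_zero]
  exact le_abs_self _

lemma vec_eq (n : ℕ) (x y : (cov (Gn n)).V) (h : cls (Gn n) x = cls (Gn n) y) :
    ‖vec n x - vec n y‖ ^ 2 = (ham (Gn n) x y).card := by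
  rw [EuclideanSpace.real_norm_sq_eq, Fintype.sum_sum_type, ham, Finset.card_filter, Nat.cast_sum]
  simp only [vec, PiLp.sub_apply, Sum.elim_inr, Sum.elim_inl, h, sub_self]
  rw [Finset.sum_eq_zero (s := Finset.univ) (f := fun _ => (0 : ℝ) ^ 2) (fun _ _ => by simp),
    add_zero]
  refine Finset.sum_congr rfl fun e _ => ?_
  rcases z2 (x.2 e) with a | a <;> rcases z2 (y.2 e) with b | b <;> simp [a, b]

abbrev HH : Type := lp (fun n : ℕ => EuclideanSpace ℝ (J n)) 2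
noncomputable def Φ (x : XX) : HH := lp.single 2 x.1 (vec x.1 x.2.1)

lemma Φ_same (n : ℕ) (x y : (cov (Gn n)).V × ZMod 2) :
    ‖Φ ⟨n, x⟩ - Φ ⟨n, y⟩‖ = ‖vec n x.1 - vec n y.1‖ := by
  have h : Φ ⟨n, x⟩ - Φ ⟨n, y⟩ = lp.single 2 n (vec n x.1 - vec n y.1) :=
    (lp.single_sub (E := fun n : ℕ => EuclideanSpace ℝ (J n)) 2 n (vec n x.1) (vec n y.1)).symm
  rw [h, lp.norm_single (by norm_num)]

lemma Φ_diff (x y : XX) (h : x.1 ≠ y.1) : (L x : ℝ) ≤ ‖Φ x - Φ y‖ := by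
  refine le_trans ?_ (lp.norm_apply_le_norm (by norm_num) (Φ x - Φ y) x.1)
  have : (Φ x - Φ y) x.1 = vec x.1 x.2.1 := by
    rw [lp.coeFn_sub, Pi.sub_apply, Φ, Φ, lp.single_apply_self, lp.single_apply_ne _ _ _ h,
      sub_zero]
  rw [this, L]; push_cast; exact vec_ge _ _

lemma Φ_walk (l : List (I × Bool)) : ∀ x : XX, ‖Φ (wk x l) - Φ x‖ ≤ l.length := by
  induction l with
  | nil => intro x; simp [show wk x [] = x from rfl]
  | cons a l ih =>
    intro x
    let x' : XX := ⟨x.1, step (liftPerm _ (sn x.1)) a x.2⟩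
    have h1 := ih x'
    have h2 : ‖Φ x' - Φ x‖ ≤ 1 := by
      have := Φ_same x.1 (step (liftPerm _ (sn x.1)) a x.2) x.2
      refine this.le.trans ?_
      rw [lift_step_fst, ← sq_le_one_iff₀ (norm_nonneg _), vec_eq _ _ _ (cls_step _ _ _)]
      exact_mod_cast ham_step _ _ _
    have h3 := norm_sub_le_norm_sub_add_norm_sub (Φ (wk x' l)) (Φ x') (Φ x)
    have h4 : wk x (a :: l) = wk x' l := rfl
    rw [h4, List.length_cons]; push_cast; linarith

lemma proper (r : ℝ) : ∃ N : ℕ, ∀ x0 : XX, {x | ‖Φ x - Φ x0‖ ≤ r}.encard ≤ N := by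
  obtain ⟨k, hk⟩ := exists_nat_ge (max r (r ^ 2))
  have k1 : r ≤ k := (le_max_left _ _).trans hk
  have k2 : r ^ 2 ≤ k := (le_max_right _ _).trans hk
  obtain ⟨N, hN⟩ := bnd (fin_level k)
    ((List.finite_length_le (I × Bool) k).prod (Set.finite_univ (α := ZMod 2)))
  refine ⟨N, fun x0 => hN (fun p => ⟨x0.1, (walk (cov (Gn x0.1)).π x0.2.1 p.1, p.2)⟩) _
    fun x hx => ?_⟩
  by_cases hL : L x ≤ k
  · exact Or.inl hL
  right
  have hL' : (k : ℝ) < L x := by exact_mod_cast not_le.1 hL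
  have hx' : ‖Φ x - Φ x0‖ ≤ r := hx
  obtain ⟨n, x⟩ := x
  obtain ⟨m, x0⟩ := x0
  have hn : n = m := by
    by_contra h
    have := Φ_diff ⟨n, x⟩ ⟨m, x0⟩ h
    linarith
  subst hn
  rw [Φ_same] at hx'
  have hc : cls (Gn n) x0.1 = cls (Gn n) x.1 := by
    by_contra h
    have := vec_ne n x.1 x0.1 (Ne.symm h)
    simp only [L, Nat.cast_add, Nat.cast_one] at hL'
    linarith
  have hh : (ham (Gn n) x0.1 x.1).card ≤ k := by
    have h1 := vec_eq n _ _ hc
    rw [norm_sub_rev] at h1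
    have h2 : ‖vec n x.1 - vec n x0.1‖ ^ 2 ≤ r ^ 2 := by gcongr
    exact_mod_cast (h1 ▸ h2).trans k2
  have hkn : k ≤ n := by simp only [L] at hL; omega
  obtain ⟨l, h1, h2⟩ := path (Gn n) (QGn n) x.1 _ (hh.trans hkn) x0.1 hc rfl
  refine ⟨(l, x.2), ⟨show l.length ≤ k by omega, trivial⟩, ?_⟩
  simp only [h2]

abbrev YY : Type := Set.range Φ
noncomputable def ff (x : XX) : YY := ⟨Φ x, x, rfl⟩

lemma ulfY : ULF YY := by
  intro r _
  obtain ⟨N, hN⟩ := proper r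
  refine ⟨N, ?_⟩
  rintro ⟨_, x0, rfl⟩
  refine le_trans ?_ ((Set.encard_image_le ff _).trans (hN x0))
  refine Set.encard_le_encard ?_
  rintro ⟨_, x, rfl⟩ hx
  refine ⟨x, ?_, rfl⟩
  have : dist (Φ x) (Φ x0) ≤ r := hx
  rwa [dist_eq_norm] at this

lemma far (n : ℕ) (v : (cov (Gn n)).V) : n + 1 ≤ D ⟨n, (v, 0)⟩ ⟨n, (v, 1)⟩ := by
  rcases near_D ⟨n, (v, 0)⟩ ⟨n, (v, 1)⟩ with ⟨l, h1, h2⟩ | h
  · have h3 : walk (liftPerm _ (sn n)) (v, 0) l = (v, 1) := eq_of_heq (Sigma.mk.inj h2).2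
    have := displace (cov (Gn n)) (QGn (n + 1)) (sn n) v l h3
    omega
  · simp only [L] at h; omega

theorem result.{u} : ∃ (X Y : Type) (_ : MetricSpace X) (_ : MetricSpace Y) (f : X → Y),
    ULF X ∧ ULF Y ∧ IsCoarse f ∧ UFinToOne f ∧ EmbedsHilbert.{0} Y ∧ ¬ EmbedsHilbert.{u} X := by
  refine ⟨XX, YY, inferInstance, inferInstance, ff, ulfX, ulfY, fun r hr => ?_, ?_, ?_, ?_⟩
  · obtain ⟨k, hk⟩ := exists_nat_ge r
    obtain ⟨B, hB⟩ := ((fin_level k).image fun x => ‖Φ x‖).bddAbove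
    refine ⟨r + k + 2 * |B|, by positivity, fun x x' h => ?_⟩
    change dist (Φ x) (Φ x') ≤ _
    have := abs_nonneg B
    have := le_abs_self B
    rcases near_of_dist hk h with ⟨l, h1, rfl⟩ | h
    · have h2 : (l.length : ℝ) ≤ k := by exact_mod_cast h1
      rw [dist_comm, dist_eq_norm]
      linarith [Φ_walk l x]
    · have h1 : ‖Φ x‖ ≤ B := hB ⟨x, show L x ≤ k by omega, rfl⟩
      have h2 : ‖Φ x'‖ ≤ B := hB ⟨x', show L x' ≤ k by omega, rfl⟩
      rw [dist_eq_norm]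
      linarith [norm_sub_le (Φ x) (Φ x'), Nat.cast_nonneg (α := ℝ) k]
  · obtain ⟨N, hN⟩ := proper 0
    refine ⟨N, ?_⟩
    rintro ⟨_, x0, rfl⟩
    refine (Set.encard_le_encard fun x hx => ?_).trans (hN x0)
    have : Φ x = Φ x0 := congrArg Subtype.val hx
    simp [this]
  · refine ⟨HH, inferInstance, inferInstance, inferInstance, Subtype.val, id, id, tendsto_id,
      fun x x' => ?_⟩
    have : nndist x x' = ‖x.1 - x'.1‖₊ := nndist_eq_nnnorm x.1 x'.1
    simp [this]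
  · rintro ⟨H, _, _, _, g, ρm, ρp, ht, hg⟩
    set C : ℝ := ((ρp 1 : ℝ≥0) : ℝ) with hC
    have C0 : 0 ≤ C := (ρp 1).2
    have lip : ∀ (x : XX) (a : I × Bool), ‖g (wk x [a]) - g x‖ ≤ C := by
      intro x a
      have h1 : D (wk x [a]) x ≤ 1 := D_le (Near.symm (Or.inl ⟨[a], le_rfl, rfl⟩))
      rcases Nat.le_one_iff_eq_zero_or_eq_one.1 h1 with h | h
      · have : wk x [a] = x := eq_of_dist_eq_zero (by rw [dist_def, h]; simp)
        rw [this]; simpa using C0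
      · have h2 : nndist (wk x [a]) x = 1 := NNReal.eq (by rw [coe_nndist, dist_def, h]; simp)
        have := (hg (wk x [a]) x).2
        rw [h2] at this
        exact_mod_cast this
    obtain ⟨t, htt⟩ := eventually_atTop.1 (ht.eventually_gt_atTop (400 * ρp 1))
    obtain ⟨n, hn⟩ := exists_nat_ge t
    let ψ : (cov (Gn n)).V → H := fun v => g ⟨n, (v, 0)⟩ - g ⟨n, (v, 1)⟩
    have low : ∀ v, 400 * C < ‖ψ v‖ := by
      intro v
      have h1 : t ≤ nndist (α := XX) ⟨n, (v, 0)⟩ ⟨n, (v, 1)⟩ := by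
        refine hn.trans ?_
        rw [← NNReal.coe_le_coe, coe_nndist, dist_def]
        exact_mod_cast (Nat.le_succ n).trans (far n v)
      have h2 := NNReal.coe_lt_coe.2 ((htt _ h1).trans_le (hg _ _).1)
      rw [NNReal.coe_mul, coe_nnnorm] at h2
      exact h2
    have up : ∀ e : (cov (Gn n)).E, ‖ψ ((cov (Gn n)).tgt e) - sg (sn n e) • ψ e.1‖ ≤ 2 * C := by
      intro e
      have h0 : ‖g ⟨n, ((cov (Gn n)).tgt e, 0 + sn n e)⟩ - g ⟨n, (e.1, 0)⟩‖ ≤ C :=
        lip ⟨n, (e.1, 0)⟩ (e.2, true)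
      have h1 : ‖g ⟨n, ((cov (Gn n)).tgt e, 1 + sn n e)⟩ - g ⟨n, (e.1, 1)⟩‖ ≤ C :=
        lip ⟨n, (e.1, 1)⟩ (e.2, true)
      have h2 := (norm_sub_le _ _).trans (add_le_add h0 h1)
      rcases z2 (sn n e) with a | a
      · rw [a, add_zero, add_zero] at h2
        rw [a, two_mul]
        refine le_trans (le_of_eq ?_) h2
        congr 1; simp only [ψ, sg, if_true, one_smul]; abel
      · rw [a, zero_add, z2_add_self] at h2
        rw [a, two_mul, ← norm_neg]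
        refine le_trans (le_of_eq ?_) h2
        congr 1; simp only [ψ, sg, if_neg (one_ne_zero (α := ZMod 2)), neg_smul, one_smul]; abel
    have gap := gap_hilbert _ (sn_spec n) ψ
    have a1 : ∑ _v : (cov (Gn n)).V, (400 * C) ^ 2 < ∑ v, ‖ψ v‖ ^ 2 :=
      Finset.sum_lt_sum_of_nonempty Finset.univ_nonempty fun v _ => by
        have := low v
        gcongr
    have a2 : ∑ e : (cov (Gn n)).E, ‖ψ ((cov (Gn n)).tgt e) - sg (sn n e) • ψ e.1‖ ^ 2
        ≤ ∑ _e : (cov (Gn n)).E, (2 * C) ^ 2 :=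
      Finset.sum_le_sum fun e _ => by
        have := up e
        gcongr
    simp only [Finset.sum_const, Finset.card_univ, Fintype.card_prod, Fintype.card_fin,
      nsmul_eq_mul, Nat.cast_mul, Nat.cast_ofNat] at a1 a2
    nlinarith

end Pool.Agent.Results.MP_2695c4_gt.Counter
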